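import Mathlib
import Pool.Agent.K7.H49.ME.PolyA

/-!
# Almost all multiples of given polynomials

For all real polynomials `P_1, ..., P_k` of positive degree with positive leading coefficients, arbitrary functions
`h_1, ..., h_k` with `0 ≤ h_i(n) ≤ P_i(n) (log n) ^ B`, every set `𝒩` of positive integers with at least `N ^ κ`
elements in `(N, 2 N]` for infinitely many `N` (`κ > 0`) and almost all real `α_1, ..., α_k > 0` there are infinitely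
many of these `N` such that for at least `c |𝒩 ∩ (N, 2 N]| / (log N) ^ k` of the `n` in `𝒩 ∩ (N, 2 N]` all the numbers
`p_n + 2 (h_i(n) + ⌊α_i P_i(n)⌋)` are prime; `c > 0` depends on `k` and a bound for the degrees only.
-/

set_option autoImplicit false

namespace Pool.Agent.Results.MP_3aaefc_nt.AlmostAllMultiples

open Finset MeasureTheory Filter Polynomial
open scoped Classical

/-- the `n`-th prime, `n ≥ 1` -/
noncomputable def p (n : ℕ) : ℕ := Nat.nth Nat.Prime (n - 1)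

/-- the set of the `n ∈ 𝒩` with `N < n ≤ 2 N` -/
noncomputable def block (𝒩 : Set ℕ) (N : ℕ) : Finset ℕ := (Ioc N (2 * N)).filter (fun n => n ∈ 𝒩)

/-- the number of the `n ∈ 𝒩`, `N < n ≤ 2 N`, for which all `p_n + 2 (h_i(n) + ⌊α_i P_i(n)⌋)` are prime -/
noncomputable def count {k : ℕ} (P : Fin k → ℝ[X]) (h : Fin k → ℕ → ℤ) (α : Fin k → ℝ) (𝒩 : Set ℕ) (N : ℕ) : ℕ :=
  ((block 𝒩 N).filter (fun n => ∀ i, ∃ q : ℕ, q.Prime ∧
    (q : ℤ) = p n + 2 * (h i n + ⌊α i * (P i).eval (n : ℝ)⌋))).card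

theorem result (k d : ℕ) : ∃ c : ℝ, 0 < c ∧ ∀ (P : Fin k → ℝ[X]) (h : Fin k → ℕ → ℤ) (B : ℕ),
    (∀ i, 1 ≤ (P i).natDegree ∧ (P i).natDegree ≤ d ∧ 0 < (P i).leadingCoeff) →
    (∀ i, ∀ᶠ n : ℕ in atTop, 0 ≤ h i n ∧ (h i n : ℝ) ≤ (P i).eval (n : ℝ) * Real.log n ^ B) →
    ∀ κ : ℝ, 0 < κ → ∀ 𝒩 : Set ℕ, (∃ᶠ N : ℕ in atTop, (N : ℝ) ^ κ ≤ (block 𝒩 N).card) →
    ∀ᵐ α : Fin k → ℝ, (∀ i, 0 < α i) → ∃ᶠ N : ℕ in atTop, (N : ℝ) ^ κ ≤ (block 𝒩 N).card ∧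
      c * (block 𝒩 N).card / Real.log N ^ k ≤ count P h α 𝒩 N := by
  refine ⟨(1 / (4 * (((d + 1 : ℕ) : ℝ) + 1))) ^ k / 2, by positivity, ?_⟩
  intro P h B hP hh κ hκ 𝒩 h𝒩
  have hmain := Pool.Agent.K7.H49.ME.poly_metric k d P h B hh (fun i => (hP i).1) (fun i => (hP i).2.1)
    (fun i => (hP i).2.2) (block 𝒩) (fun N => filter_subset _ _) κ hκ h𝒩
  filter_upwards [hmain] with α hα hα0
  refine (hα hα0).mono fun N hN => ⟨hN.1, hN.2.trans (Nat.cast_le.2 (card_le_card ?_))⟩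
  intro n hn
  obtain ⟨h1, h2⟩ := Finset.mem_filter.1 hn
  refine Finset.mem_filter.2 ⟨h1, fun i => ?_⟩
  have h3 := h2 i
  refine ⟨_, h3, ?_⟩
  have h4 : 0 ≤ (((Nat.nth Nat.Prime (n - 1) : ℕ) : ℤ) + 2 * h i n) + 2 * ⌊α i * (P i).eval (n : ℝ)⌋ := by
    by_contra hneg
    push Not at hneg
    rw [Int.toNat_of_nonpos hneg.le] at h3
    exact Nat.not_prime_zero h3
  rw [Int.toNat_of_nonneg h4]
  unfold p
  ring

end Pool.Agent.Results.MP_3aaefc_nt.AlmostAllMultiples
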