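import Pool.Agent.K7.H49.LT.NthO

set_option autoImplicit false

/-! # Primes `p_n + 2 P_i(n)` for almost all members of thin families of polynomials: the optimal range

`k` families of functions `P_i = s_i(l) g_i + h_i + b`, where `s_i(l)` runs through a family of integers of
nearly minimal additive energy, `g_i` is injective and of size a power of the logarithm, `h_i` is arbitrary
and `b` is the constant term; for `g_i(n) = C(n, r)` and an integer-valued polynomial `h_i` these are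
integer-valued polynomials. For almost all `l` and almost all constant terms `b ≤ 2 N` the number of the indices
`n`, in any set of at least `K (log N) ^ k` indices, for which all `p_n + 2 P_i(n)` are prime is the one
predicted by a sieve; for sets of at most `δ (log N) ^ k` indices there is no such `n` for almost all `b`.
-/

namespace Pool.Agent.Results.MP_3aaefc_nt.OptimalRange

open Finset

/-- the `n`-th prime, `n ≥ 1` -/
noncomputable def p (n : ℕ) : ℕ := Nat.nth Nat.Prime (n - 1)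

/-- the number of solutions of `s(v 1) + ... + s(v r) = s(w 1) + ... + s(w r)` with all `v i`, `w i` in
`{1, ..., x}` -/
def energy (r x : ℕ) (s : ℕ → ℤ) : ℕ :=
  (((Fintype.piFinset fun _ : Fin r => Icc 1 x) ×ˢ (Fintype.piFinset fun _ : Fin r => Icc 1 x)).filter
    (fun q => ∑ i, s (q.1 i) = ∑ i, s (q.2 i))).card

/-- the number of the `n ∈ 𝒩` for which all the numbers `p_n + 2 P_i(n)` are prime (they are positive in the
theorem, where `P_i(n) ≥ 0`) -/
noncomputable def count {k : ℕ} (P : Fin k → ℕ → ℤ) (𝒩 : Finset ℕ) : ℕ :=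
  (𝒩.filter (fun n => ∀ i, ((p n : ℤ) + 2 * P i n).toNat.Prime)).card

/-- the number of the `n ∈ 𝒩` for which none of the numbers `p_n + 2 P_i(n)` has a prime factor `≤ w` -/
noncomputable def rough {k : ℕ} (P : Fin k → ℕ → ℤ) (𝒩 : Finset ℕ) (w : ℕ) : ℕ :=
  (𝒩.filter (fun n => ∀ q ∈ (Icc 1 w).filter Nat.Prime, ∀ i, ¬ (q : ℤ) ∣ (p n : ℤ) + 2 * P i n)).card

/-- the prediction: the density of the primes among the integers of size `N` without prime factors `≤ w` is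
`1 / (log N ∏_{q ≤ w} (1 - 1/q))` -/
noncomputable def expected {k : ℕ} (P : Fin k → ℕ → ℤ) (𝒩 : Finset ℕ) (w N : ℕ) : ℝ :=
  rough P 𝒩 w / (Real.log N * ∏ q ∈ (Icc 1 w).filter Nat.Prime, (1 - 1 / (q : ℝ))) ^ k

/-- the function `c g(n) + h(n) + b` -/
def poly (g h : ℕ → ℤ) (c : ℤ) (b : ℕ) (n : ℕ) : ℤ := c * g n + h n + b

open Classical in
/-- the number of the vectors `b` of constant terms, `N < b_i ≤ 2 N`, for which the number of the `n ∈ 𝒩` with
all `p_n + 2 P_i(n)` prime, `P_i(n) = c_i g_i(n) + h_i(n) + b_i`, is not as predicted -/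
noncomputable def exceptions {k : ℕ} (ε : ℝ) (N : ℕ) (g h : Fin k → ℕ → ℤ) (c : Fin k → ℤ) (𝒩 : Finset ℕ) (w : ℕ) : ℕ :=
  ((Fintype.piFinset fun _ : Fin k => Ioc N (2 * N)).filter (fun b => ¬
    |(count (fun i => poly (g i) (h i) (c i) (b i)) 𝒩 : ℝ) - expected (fun i => poly (g i) (h i) (c i) (b i)) 𝒩 w N| ≤
      ε * (expected (fun i => poly (g i) (h i) (c i) (b i)) 𝒩 w N + 𝒩.card / Real.log N ^ k))).card

open Classical in
/-- the number of the vectors `b` of constant terms, `N < b_i ≤ 2 N`, for which some `n ∈ 𝒩` makes all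
`p_n + 2 P_i(n)` prime -/
noncomputable def successes {k : ℕ} (N : ℕ) (g h : Fin k → ℕ → ℤ) (c : Fin k → ℤ) (𝒩 : Finset ℕ) : ℕ :=
  ((Fintype.piFinset fun _ : Fin k => Ioc N (2 * N)).filter (fun b =>
    count (fun i => poly (g i) (h i) (c i) (b i)) 𝒩 ≠ 0)).card

/-- **Primes `p_n + 2 P_i(n)` for almost all members of thin families: the optimal range.** Let `k, Q ≥ 1` and
`ε > 0`. There is a `K` such that for all `A`, `B`, `E`, `H` and all large `N` the following holds.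

Let `I` be a set of at least `(log N)^k` integers `1 ≤ n ≤ (log N)^E`, let `g_1, ..., g_k` be injective on `I` with
`|g_i(n)| ≤ (log N)^E`, let `h_1, ..., h_k` be arbitrary and for each `i ≤ k` let `s_i(1), ..., s_i(x_i)` be
integers with nearly minimal additive energy `E_r(s_i) ≤ x_i^(2 r) (log N)^B / N`, for some `1 ≤ r ≤ H`. Assume that
`0 ≤ s_i(l) g_i(n) + h_i(n) ≤ N (log N)^E` for all `i`, `l ≤ x_i` and `n ∈ I`.

Then there are sets `𝒢_i` containing all but `x_i / (log N)^A` of the `l ≤ x_i` such that for all `l_i ∈ 𝒢_i` and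
all sets `𝒩 ⊆ I`, with `P_i(n) = s_i(l_i) g_i(n) + h_i(n) + b_i`:

(1) if `𝒩` has at least `K (log N)^k` elements, then for all but `ε N^k` of the vectors `b` with
`N < b_i ≤ 2 N`, the number of the `n ∈ 𝒩` for which all the `p_n + 2 P_i(n)` are prime differs by at most
`ε (X + |𝒩| / (log N)^k)` from `X`, the number of the `n ∈ 𝒩` for which none of them has a prime factor
`≤ w = ⌊|𝒩|^(1/Q)⌋`, divided by `(log N ∏_{q ≤ w} (1 - 1/q))^k`;

(2) for all but `4^k |𝒩| / (log N)^k N^k` of the vectors `b` with `N < b_i ≤ 2 N` there is no `n ∈ 𝒩` for which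
all the `p_n + 2 P_i(n)` are prime. -/
theorem result (k Q : ℕ) (hk : 1 ≤ k) (hQ : 1 ≤ Q) (ε : ℝ) (hε : 0 < ε) : ∃ K : ℝ, 0 < K ∧ ∀ A B E H : ℕ, ∃ N₀ : ℕ,
    ∀ N : ℕ, N₀ ≤ N → ∀ (x : Fin k → ℕ) (s : Fin k → ℕ → ℤ) (I : Finset ℕ) (g h : Fin k → ℕ → ℤ),
    (∀ n ∈ I, 1 ≤ n ∧ (n : ℝ) ≤ Real.log N ^ E) → Real.log N ^ k ≤ I.card →
    (∀ i, ∀ n ∈ I, ∀ n' ∈ I, n ≠ n' → g i n ≠ g i n') → (∀ i, ∀ n ∈ I, |(g i n : ℝ)| ≤ Real.log N ^ E) →
    (∀ i, ∀ l ∈ Icc 1 (x i), ∀ n ∈ I, 0 ≤ s i l * g i n + h i n ∧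
      ((s i l * g i n + h i n : ℤ) : ℝ) ≤ N * Real.log N ^ E) →
    (∀ i, ∃ r, 1 ≤ r ∧ r ≤ H ∧ (energy r (x i) (s i) : ℝ) * N ≤ Real.log N ^ B * (x i : ℝ) ^ (2 * r)) →
    ∃ 𝒢 : Fin k → Finset ℕ, (∀ i, 𝒢 i ⊆ Icc 1 (x i) ∧ ((Icc 1 (x i) \ 𝒢 i).card : ℝ) ≤ x i / Real.log N ^ A) ∧
      ∀ l : Fin k → ℕ, (∀ i, l i ∈ 𝒢 i) → ∀ 𝒩 ⊆ I,
        (K * Real.log N ^ k ≤ 𝒩.card → ∀ w : ℕ, w ^ Q ≤ 𝒩.card → 𝒩.card < (w + 1) ^ Q →
          (exceptions ε N g h (fun i => s i (l i)) 𝒩 w : ℝ) ≤ ε * (N : ℝ) ^ k) ∧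
        (successes N g h (fun i => s i (l i)) 𝒩 : ℝ) ≤ 4 ^ k * (𝒩.card / Real.log N ^ k) * (N : ℝ) ^ k := by
  obtain ⟨K, hK, hC⟩ := Pool.Agent.K7.H49.LT.nthO_main k Q hk hQ ε hε
  refine ⟨K, hK, fun A B E H => ?_⟩
  obtain ⟨N0, h0⟩ := hC A B E H
  refine ⟨max N0 3, fun N hN x s I g h hI hIk hg hgE hsg hE => ?_⟩
  obtain ⟨𝒢, h𝒢, hmain⟩ := h0 N ((le_max_left _ _).trans hN) x s I g h hI hIk hg hgE hsg hE
  have hN3 : 3 ≤ N := (le_max_right _ _).trans hN
  have hNr : (3 : ℝ) ≤ N := by exact_mod_cast hN3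
  have hL1 : 1 ≤ Real.log N := by
    rw [Real.le_log_iff_exp_le (by linarith)]
    have := Real.exp_one_lt_d9
    linarith
  have hL0 : 0 < Real.log N := by linarith
  refine ⟨𝒢, h𝒢, fun l hl 𝒩 h𝒩 => ⟨fun hM w hw1 hw2 => ?_, ?_⟩⟩
  · refine le_trans ?_ ((hmain l hl 𝒩 h𝒩).1 hM w hw1 hw2)
    have hlI : ∀ i, l i ∈ Icc 1 (x i) := fun i => (h𝒢 i).1 (hl i)
    unfold exceptions
    have hcard : ∀ b : Fin k → ℕ,
        |((𝒩.filter (fun n => ∀ i, (Pool.Agent.K7.H49.LT.pv n (s i (l i) * g i n + h i n + b i)).Prime)).card : ℝ) * Real.log N ^ k -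
          (Pool.Agent.H373R2.T7.Vz w)⁻¹ ^ k * (𝒩.filter (fun n => ∀ p ∈ Pool.Agent.H373R2.T7.pz w, ∀ i,
            ¬ p ∣ Pool.Agent.K7.H49.LT.pv n (s i (l i) * g i n + h i n + b i))).card| ≤
          ε * ((Pool.Agent.H373R2.T7.Vz w)⁻¹ ^ k * (𝒩.filter (fun n => ∀ p ∈ Pool.Agent.H373R2.T7.pz w, ∀ i,
            ¬ p ∣ Pool.Agent.K7.H49.LT.pv n (s i (l i) * g i n + h i n + b i))).card) + ε * 𝒩.card →
        |(count (fun i => poly (g i) (h i) (s i (l i)) (b i)) 𝒩 : ℝ) - expected (fun i => poly (g i) (h i) (s i (l i)) (b i)) 𝒩 w N| ≤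
          ε * (expected (fun i => poly (g i) (h i) (s i (l i)) (b i)) 𝒩 w N + 𝒩.card / Real.log N ^ k) := by
      intro b h5
      have e1 : (𝒩.filter (fun n => ∀ i, (Pool.Agent.K7.H49.LT.pv n (s i (l i) * g i n + h i n + b i)).Prime)).card =
          count (fun i => poly (g i) (h i) (s i (l i)) (b i)) 𝒩 := rfl
      have e2 : (𝒩.filter (fun n => ∀ p ∈ Pool.Agent.H373R2.T7.pz w, ∀ i,
            ¬ p ∣ Pool.Agent.K7.H49.LT.pv n (s i (l i) * g i n + h i n + b i))).card =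
          rough (fun i => poly (g i) (h i) (s i (l i)) (b i)) 𝒩 w := by
        unfold rough
        congr 1
        apply filter_congr
        intro n hn
        have h6 : ∀ (q : ℕ) (i : Fin k), (q ∣ Pool.Agent.K7.H49.LT.pv n (s i (l i) * g i n + h i n + b i) ↔
            (q : ℤ) ∣ (p n : ℤ) + 2 * poly (g i) (h i) (s i (l i)) (b i) n) := by
          intro q i
          have h7 := (hsg i (l i) (hlI i) n (h𝒩 hn)).1
          have h8 : (0 : ℤ) ≤ (p n : ℤ) + 2 * poly (g i) (h i) (s i (l i)) (b i) n := by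
            unfold poly
            have : (0 : ℤ) ≤ (p n : ℤ) := Int.natCast_nonneg _
            have : (0 : ℤ) ≤ (b i : ℤ) := Int.natCast_nonneg _
            linarith
          have h9 : ((Pool.Agent.K7.H49.LT.pv n (s i (l i) * g i n + h i n + b i) : ℕ) : ℤ) =
              (p n : ℤ) + 2 * poly (g i) (h i) (s i (l i)) (b i) n := Int.toNat_of_nonneg h8
          rw [← h9, Int.natCast_dvd_natCast]
        constructor
        · intro h7 q hq i h8
          exact h7 q hq i ((h6 q i).2 h8)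
        · intro h7 q hq i h8
          exact h7 q hq i ((h6 q i).1 h8)
      have hV : Pool.Agent.H373R2.T7.Vz w = ∏ q ∈ (Icc 1 w).filter Nat.Prime, (1 - 1 / (q : ℝ)) := rfl
      rw [e1, e2] at h5
      set P := Real.log N ^ k with hPd
      have hP1 : 1 ≤ P := one_le_pow₀ hL1
      have hP : 0 < P := by linarith
      have e3 : expected (fun i => poly (g i) (h i) (s i (l i)) (b i)) 𝒩 w N =
          ((Pool.Agent.H373R2.T7.Vz w)⁻¹ ^ k * rough (fun i => poly (g i) (h i) (s i (l i)) (b i)) 𝒩 w) / P := by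
        unfold expected
        rw [← hV, mul_pow, ← hPd]
        ring
      rw [e3]
      set r := (Pool.Agent.H373R2.T7.Vz w)⁻¹ ^ k * (rough (fun i => poly (g i) (h i) (s i (l i)) (b i)) 𝒩 w : ℝ)
      set ct := (count (fun i => poly (g i) (h i) (s i (l i)) (b i)) 𝒩 : ℝ)
      have e4 : ct - r / P = (ct * P - r) / P := by field_simp
      rw [e4, abs_div, abs_of_pos hP, div_le_iff₀ hP]
      refine h5.trans (le_of_eq ?_)
      field_simp
    have hsub : (Fintype.piFinset fun _ : Fin k => Ioc N (2 * N)).filter (fun b => ¬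
        |(count (fun i => poly (g i) (h i) (s i (l i)) (b i)) 𝒩 : ℝ) - expected (fun i => poly (g i) (h i) (s i (l i)) (b i)) 𝒩 w N| ≤
          ε * (expected (fun i => poly (g i) (h i) (s i (l i)) (b i)) 𝒩 w N + 𝒩.card / Real.log N ^ k)) ⊆
        (Fintype.piFinset fun _ : Fin k => Ioc N (2 * N)).filter (fun b => ¬
        |((𝒩.filter (fun n => ∀ i, (Pool.Agent.K7.H49.LT.pv n (s i (l i) * g i n + h i n + b i)).Prime)).card : ℝ) * Real.log N ^ k -
          (Pool.Agent.H373R2.T7.Vz w)⁻¹ ^ k * (𝒩.filter (fun n => ∀ p ∈ Pool.Agent.H373R2.T7.pz w, ∀ i,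
            ¬ p ∣ Pool.Agent.K7.H49.LT.pv n (s i (l i) * g i n + h i n + b i))).card| ≤
          ε * ((Pool.Agent.H373R2.T7.Vz w)⁻¹ ^ k * (𝒩.filter (fun n => ∀ p ∈ Pool.Agent.H373R2.T7.pz w, ∀ i,
            ¬ p ∣ Pool.Agent.K7.H49.LT.pv n (s i (l i) * g i n + h i n + b i))).card) + ε * 𝒩.card) := by
      intro b hb
      rw [mem_filter] at hb ⊢
      exact ⟨hb.1, fun h5 => hb.2 (hcard b h5)⟩
    exact_mod_cast card_le_card hsub
  · refine le_trans ?_ (hmain l hl 𝒩 h𝒩).2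
    unfold successes
    apply Nat.cast_le.2
    apply card_le_card
    intro b hb
    rw [mem_filter] at hb ⊢
    refine ⟨hb.1, ?_⟩
    have h5 : 0 < count (fun i => poly (g i) (h i) (s i (l i)) (b i)) 𝒩 := Nat.pos_of_ne_zero hb.2
    unfold count at h5
    obtain ⟨n, hn⟩ := card_pos.1 h5
    rw [mem_filter] at hn
    exact ⟨n, hn.1, hn.2⟩

end Pool.Agent.Results.MP_3aaefc_nt.OptimalRange
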