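import Pool.Agent.K7.H49.LT.DN2

set_option autoImplicit false

/-! # Primes `p_n + 2 (P_i(n) + b_i)` for almost all constants from thin families: polynomials of degree one

`P_1, ..., P_k` are arbitrary functions for which the integers `p_n + 2 P_i(n)`, `n ∈ 𝒩`, are distinct and at most
`N (log N)^B`, for instance fixed integer-valued polynomials of degree `≤ 1` with leading coefficient `≥ 0` (and at
most a power of the logarithm), with `𝒩` the set of all `n ≤ N` or any subset. The constants `b_i` run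
through families of nearly minimal additive energy; these can be thin: values of polynomials, convex sequences,
integers composed of few given primes. For almost all vectors of constants the number of the `n ∈ 𝒩` with
all `p_n + 2 (P_i(n) + b_i)` prime is the one predicted by a sieve by the primes up to a power of the logarithm.
-/

namespace Pool.Agent.Results.MP_3aaefc_nt.ThinConstants

open Finset

/-- the `n`-th prime, `n ≥ 1` -/
noncomputable def p (n : ℕ) : ℕ := Nat.nth Nat.Prime (n - 1)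

/-- the number of solutions of `s(v 1) + ... + s(v r) = s(w 1) + ... + s(w r)` with all `v i`, `w i` in
`{1, ..., x}` -/
def energy (r x : ℕ) (s : ℕ → ℤ) : ℕ :=
  (((Fintype.piFinset fun _ : Fin r => Icc 1 x) ×ˢ (Fintype.piFinset fun _ : Fin r => Icc 1 x)).filter
    (fun q => ∑ i, s (q.1 i) = ∑ i, s (q.2 i))).card

/-- the number of the `n ∈ 𝒩` for which all the numbers `p_n + 2 P_i(n)` are prime (they are positive in the
theorem) -/
noncomputable def count {k : ℕ} (P : Fin k → ℕ → ℤ) (𝒩 : Finset ℕ) : ℕ :=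
  (𝒩.filter (fun n => ∀ i, ((p n : ℤ) + 2 * P i n).toNat.Prime)).card

/-- the number of the `n ∈ 𝒩` for which none of the numbers `p_n + 2 P_i(n)` has a prime factor `≤ z` -/
noncomputable def rough {k : ℕ} (P : Fin k → ℕ → ℤ) (𝒩 : Finset ℕ) (z : ℕ) : ℕ :=
  (𝒩.filter (fun n => ∀ q ∈ (Icc 1 z).filter Nat.Prime, ∀ i, ¬ (q : ℤ) ∣ (p n : ℤ) + 2 * P i n)).card

/-- the prediction: the density of the primes among the integers of size `N` without prime factors `≤ z` is
`1 / (log N ∏_{q ≤ z} (1 - 1/q))` -/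
noncomputable def expected {k : ℕ} (P : Fin k → ℕ → ℤ) (𝒩 : Finset ℕ) (z N : ℕ) : ℝ :=
  rough P 𝒩 z / (Real.log N * ∏ q ∈ (Icc 1 z).filter Nat.Prime, (1 - 1 / (q : ℝ))) ^ k

open Classical in
/-- the number of the vectors `l`, `1 ≤ l_i ≤ x_i`, for which the number of the `n ∈ 𝒩` with all
`p_n + 2 (P_i(n) + s_i(l_i))` prime is not as predicted -/
noncomputable def exceptions {k : ℕ} (ε : ℝ) (A N : ℕ) (P : Fin k → ℕ → ℤ) (x : Fin k → ℕ) (s : Fin k → ℕ → ℤ)
    (𝒩 : Finset ℕ) (z : ℕ) : ℕ :=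
  ((Fintype.piFinset fun i => Icc 1 (x i)).filter (fun l => ¬
    |(count (fun i n => P i n + s i (l i)) 𝒩 : ℝ) - expected (fun i n => P i n + s i (l i)) 𝒩 z N| ≤
      ε * expected (fun i n => P i n + s i (l i)) 𝒩 z N + N / Real.log N ^ A)).card

/-- **Primes `p_n + 2 (P_i(n) + b_i)` for almost all constants from thin families.** For all `k`, `A`, `B`, `H` and
`ε > 0` there is a `D` such that for all `E` and all large `N` the following holds.

Let `𝒩` be a set of integers `n ≥ 1` and let `P_1, ..., P_k` be functions with integer values for which the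
integers `p_n + 2 P_i(n)`, `n ∈ 𝒩`, are pairwise distinct, positive and at most `N (log N)^B`. For each `i ≤ k` let
`s_i(1), ..., s_i(x_i)` be integers of absolute value at most `N (log N)^B` with additive energy
`E_r(s_i) ≤ x_i^(2 r) (log N)^B / N`, for some `r ≤ H`, such that all `p_n + 2 (P_i(n) + s_i(l))` are
positive. Then for every integer `z` with `(log N)^D ≤ z ≤ (log N)^E` and all but `(log N)^(-A) x_1 ... x_k` of the
vectors `(l_1, ..., l_k)`, `1 ≤ l_i ≤ x_i`, the number of the `n ∈ 𝒩` for which all `p_n + 2 (P_i(n) + s_i(l_i))` are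
prime is the number of the `n ∈ 𝒩` for which none of them has a prime factor `≤ z`, divided by
`(log N ∏_{q ≤ z} (1 - 1/q))^k`, up to `ε` times this quantity plus `N / (log N)^A`. -/
theorem result (k A B H : ℕ) (ε : ℝ) (hε : 0 < ε) : ∃ D : ℕ, ∀ E : ℕ, ∃ N₀ : ℕ, ∀ N : ℕ, N₀ ≤ N →
    ∀ (𝒩 : Finset ℕ) (P : Fin k → ℕ → ℤ) (x : Fin k → ℕ) (s : Fin k → ℕ → ℤ),
    (∀ i, ∀ n ∈ 𝒩, 1 ≤ n ∧ 0 < (p n : ℤ) + 2 * P i n ∧ (((p n : ℤ) + 2 * P i n : ℤ) : ℝ) ≤ N * Real.log N ^ B) →
    (∀ i, ∀ n ∈ 𝒩, ∀ n' ∈ 𝒩, n ≠ n' → (p n : ℤ) + 2 * P i n ≠ (p n' : ℤ) + 2 * P i n') →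
    (∀ i, ∀ l ∈ Icc 1 (x i), |(s i l : ℝ)| ≤ N * Real.log N ^ B ∧
      ∀ n ∈ 𝒩, 0 < (p n : ℤ) + 2 * (P i n + s i l)) →
    (∀ i, ∃ r ≤ H, (energy r (x i) (s i) : ℝ) * N ≤ Real.log N ^ B * (x i : ℝ) ^ (2 * r)) →
    ∀ z : ℕ, Real.log N ^ D ≤ z → (z : ℝ) ≤ Real.log N ^ E →
      (exceptions ε A N P x s 𝒩 z : ℝ) ≤ (∏ i, (x i : ℝ)) / Real.log N ^ A := by
  obtain ⟨D, hD⟩ := Pool.Agent.K7.H49.LT.dense_primes k A (B + 1) H ε hε
  refine ⟨D, fun E => ?_⟩
  obtain ⟨N0, h0⟩ := hD E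
  obtain ⟨N1, h1⟩ := Pool.Agent.H373R2.T7.ev_L' 2
  refine ⟨max N0 (max N1 1), fun N hN 𝒩 P x s hP hinj hs hE z hz1 hz2 => ?_⟩
  have hL2 := h1 N (((le_max_left _ _).trans (le_max_right _ _)).trans hN)
  have hN1 : 1 ≤ N := ((le_max_right _ _).trans (le_max_right _ _)).trans hN
  have hN0r : (0 : ℝ) < N := by exact_mod_cast hN1
  set L := Real.log N with hLd
  have hL1 : 1 ≤ L := by linarith
  have hL0 : 0 < L := by linarith
  set f : Fin k → ℕ → ℕ := fun i n => ((p n : ℤ) + 2 * P i n).toNat with hf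
  have hfz : ∀ i, ∀ n ∈ 𝒩, ((f i n : ℕ) : ℤ) = (p n : ℤ) + 2 * P i n := fun i n hn => Int.toNat_of_nonneg (hP i n hn).2.1.le
  have hLB : 2 * (N * L ^ B) ≤ N * L ^ (B + 1) := by
    have h2 : 0 ≤ (N : ℝ) * L ^ B := by positivity
    rw [pow_succ]
    nlinarith
  have hLB0 : 0 ≤ (N : ℝ) * L ^ B := by positivity
  have key := h0 N ((le_max_left _ _).trans hN) x (fun i l => s i l * 2 + 0) 𝒩 f
    (fun i n hn => by
      have g1 := hfz i n hn
      have g2 := hP i n hn
      refine ⟨by omega, ?_⟩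
      have g3 : ((f i n : ℕ) : ℝ) = (((p n : ℤ) + 2 * P i n : ℤ) : ℝ) := by exact_mod_cast congrArg (fun t : ℤ => (t : ℝ)) g1
      rw [g3]
      linarith [g2.2.2])
    (fun i n hn n' hn' hne h => by
      apply hinj i n hn n' hn' hne
      rw [← hfz i n hn, ← hfz i n' hn', h])
    (fun i l hl => by
      have g1 := (hs i l hl).1
      push_cast
      rw [add_zero, abs_mul, abs_of_pos (by norm_num : (0 : ℝ) < 2)]
      linarith)
    (fun i l hl n hn => by
      have g1 := (hs i l hl).2 n hn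
      rw [hfz i n hn]
      linarith)
    (fun i => by
      obtain ⟨r, hr, hEr⟩ := hE i
      refine ⟨r, hr, ?_⟩
      rw [Pool.Agent.K7.H49.LT.energy_affine r (x i) (s i) 2 0 (by norm_num)]
      refine (show _ ≤ _ from hEr).trans ?_
      apply mul_le_mul_of_nonneg_right _ (by positivity)
      exact pow_le_pow_right₀ hL1 (by omega)) z hz1 hz2
  refine le_trans ?_ key
  unfold exceptions
  apply Nat.cast_le.2
  apply card_le_card
  intro l hl
  rw [mem_filter] at hl ⊢
  refine ⟨hl.1, fun h5 => hl.2 ?_⟩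
  have e0 : ∀ i, ∀ n ∈ 𝒩, (f i n : ℤ) + (s i (l i) * 2 + 0) = (p n : ℤ) + 2 * (P i n + s i (l i)) := by
    intro i n hn
    rw [hfz i n hn]
    ring
  have e1 : Pool.Agent.K7.H49.LT.cntD f (fun i => s i (l i) * 2 + 0) 𝒩 = count (fun i n => P i n + s i (l i)) 𝒩 := by
    unfold Pool.Agent.K7.H49.LT.cntD count
    congr 1
    apply filter_congr
    intro n hn
    constructor
    · intro h i
      rw [← e0 i n hn]
      exact h i
    · intro h i
      rw [e0 i n hn]
      exact h i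
  have e2 : Pool.Agent.K7.H49.LT.SfD f (fun i => s i (l i) * 2 + 0) 𝒩 z = (Pool.Agent.H373R2.T7.Vz z)⁻¹ ^ k *
      rough (fun i n => P i n + s i (l i)) 𝒩 z := by
    unfold Pool.Agent.K7.H49.LT.SfD rough
    have e3 : 𝒩.filter (fun n => ∀ p ∈ Pool.Agent.H373R2.T7.pz z, ∀ i, ¬ (p : ℤ) ∣ (f i n : ℤ) + (s i (l i) * 2 + 0)) =
        𝒩.filter (fun n => ∀ q ∈ (Icc 1 z).filter Nat.Prime, ∀ i, ¬ (q : ℤ) ∣ (p n : ℤ) + 2 * (P i n + s i (l i))) := by
      apply filter_congr
      intro n hn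
      constructor
      · intro h q hq i
        rw [← e0 i n hn]
        exact h q hq i
      · intro h q hq i
        rw [e0 i n hn]
        exact h q hq i
    rw [e3]
  rw [e1, e2] at h5
  have hV : Pool.Agent.H373R2.T7.Vz z = ∏ q ∈ (Icc 1 z).filter Nat.Prime, (1 - 1 / (q : ℝ)) := rfl
  set M := L ^ k with hM
  have hM1 : 1 ≤ M := one_le_pow₀ hL1
  have hM0 : 0 < M := by linarith
  have e3 : expected (fun i n => P i n + s i (l i)) 𝒩 z N =
      ((Pool.Agent.H373R2.T7.Vz z)⁻¹ ^ k * rough (fun i n => P i n + s i (l i)) 𝒩 z) / M := by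
    unfold expected
    rw [← hV, mul_pow, ← hM]
    ring
  rw [e3]
  set r := (Pool.Agent.H373R2.T7.Vz z)⁻¹ ^ k * (rough (fun i n => P i n + s i (l i)) 𝒩 z : ℝ)
  set ct := (count (fun i n => P i n + s i (l i)) 𝒩 : ℝ)
  have e4 : ct - r / M = (ct * M - r) / M := by field_simp
  rw [e4, abs_div, abs_of_pos hM0, div_le_iff₀ hM0]
  refine h5.trans ?_
  have hn : (0 : ℝ) ≤ N / L ^ A := by positivity
  have e5 : ε * (r / M) * M = ε * r := by field_simp
  rw [add_mul, e5]
  nlinarith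

end Pool.Agent.Results.MP_3aaefc_nt.ThinConstants
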